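import Pool.Agent.MP_9991fb_an.Main

set_option autoImplicit false

namespace Pool.Agent.Results.MP_9991fb_an.NonHomogeneous

open Pool.Agent.MP_9991fb_an

/-- `X` is a strong Gurarii space: every isometric embedding into `X` of a subspace `S` of a
finite-dimensional normed space `T` extends to an isometric embedding of `T`. -/
def StrongGurarii.{u, w} (X : Type w) [NormedAddCommGroup X] [NormedSpace ℝ X] : Prop :=
  ∀ (T : Type u) [NormedAddCommGroup T] [NormedSpace ℝ T] [FiniteDimensional ℝ T]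
    (S : Submodule ℝ T) (f : S →ₗᵢ[ℝ] X), ∃ g : T →ₗᵢ[ℝ] X, ∀ s : S, g s = f s

theorem norm_v_e : ‖v (.e ∅)‖ = 1 := by
  refine le_antisymm ((ContinuousMap.norm_le _ zero_le_one).mpr fun F => ?_) ?_
  · rw [v_apply]
    simpa using F.2.1.2 {∅}
  · classical
    obtain ⟨G, hG, _, hGe⟩ := exists_K_base (F₀ := fun d => match d with
      | .y => 0
      | .e j => if j = ∅ then 1 else 0
      | _ => 0) ⟨by simp, fun s => by
        simp only [apply_ite abs, abs_one, abs_zero, Finset.sum_ite_eq']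
        split_ifs <;> norm_num⟩
    have h3 : ‖(v (.e ∅)) ⟨G, hG⟩‖ ≤ ‖v (.e ∅)‖ :=
      ContinuousMap.norm_coe_le_norm (v (.e ∅)) ⟨G, hG⟩
    rw [v_apply] at h3
    simp only [hGe] at h3
    simpa using h3

theorem norm_v_y : ‖v .y‖ = 1 := by
  refine le_antisymm ((ContinuousMap.norm_le _ zero_le_one).mpr fun F => F.2.1.1) ?_
  obtain ⟨G, hG, hGy, _⟩ := exists_K_base (F₀ := fun d => match d with
      | .y => 1
      | _ => 0) ⟨by simp, fun s => by simp⟩
  have h3 : ‖(v .y) ⟨G, hG⟩‖ ≤ ‖v .y‖ := ContinuousMap.norm_coe_le_norm (v .y) ⟨G, hG⟩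
  rw [v_apply] at h3
  simp only [hGy] at h3
  simpa using h3

theorem spans_of_vectors {Y : Type} [NormedAddCommGroup Y] [NormedSpace ℝ Y] (a b : Y)
    (ha : ‖a‖ = 1) (hb : ‖b‖ = 1) (hno : ∀ Φ : Y ≃ₗᵢ[ℝ] Y, Φ a ≠ b) :
    ∃ (E F : Submodule ℝ Y) (h : E ≃ₗᵢ[ℝ] F),
      Module.finrank ℝ E = 1 ∧ Module.finrank ℝ F = 1 ∧
      ¬ ∃ Φ : Y ≃ₗᵢ[ℝ] Y, ∀ x : E, Φ x = h x := by
  have ha0 : a ≠ 0 := fun h => by rw [h, norm_zero] at ha; norm_num at ha
  have hb0 : b ≠ 0 := fun h => by rw [h, norm_zero] at hb; norm_num at hb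
  let ea := LinearIsometryEquiv.toSpanUnitSingleton (𝕜 := ℝ) a ha
  let eb := LinearIsometryEquiv.toSpanUnitSingleton (𝕜 := ℝ) b hb
  refine ⟨Submodule.span ℝ {a}, Submodule.span ℝ {b}, ea.symm.trans eb,
    finrank_span_singleton ha0, finrank_span_singleton hb0, ?_⟩
  rintro ⟨Φ, hΦ⟩
  refine hno Φ ?_
  have h1 := hΦ (ea 1)
  have h2 : ((ea 1 : Submodule.span ℝ {a}) : Y) = a := by
    simp [ea]
  have h3 : (((ea.symm.trans eb) (ea 1) : Submodule.span ℝ {b}) : Y) = b := by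
    simp [eb]
  rw [h2, h3] at h1
  exact h1

/-- There is a strong Gurarii space with a bijective linear isometry between two
one-dimensional subspaces that has no extension to a surjective linear isometry. -/
theorem result.{u} :
    ∃ (X : Type) (_ : NormedAddCommGroup X) (_ : NormedSpace ℝ X),
      CompleteSpace X ∧ StrongGurarii.{u} X ∧
      ∃ (E F : Submodule ℝ X) (h : E ≃ₗᵢ[ℝ] F),
        Module.finrank ℝ E = 1 ∧ Module.finrank ℝ F = 1 ∧
        ¬ ∃ Φ : X ≃ₗᵢ[ℝ] X, ∀ x : E, Φ x = h x := by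
  refine ⟨X, inferInstance, inferInstance, inferInstance, ?_, ?_⟩
  · intro T _ _ _ S f
    exact extendIso S f
  · exact spans_of_vectors (Y := X) ⟨v (.e ∅), v_mem_X _⟩ ⟨v .y, v_mem_X _⟩ norm_v_e norm_v_y
      (fun Φ h => no_isometry Φ h)

end Pool.Agent.Results.MP_9991fb_an.NonHomogeneous
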